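import Pool.Agent.Work.MP_3e0647_al.Defs
import Pool.Agent.Work.MP_3e0647_al.Mt.Met

set_option autoImplicit false

namespace Pool.Agent.Results.MP_3e0647_al.Metrizable

open Pool.Agent.Work.MP_3e0647_al

/-- There is an infinite compact metrizable space `M` with a sharply 3-transitive action of a
group `G` by homeomorphisms such that no topology on `G` makes all orbit maps `G → M^(3)`
homeomorphisms. -/
theorem result : ∃ (M : Type) (_ : TopologicalSpace M) (_ : CompactSpace M) (_ : T2Space M)
    (G : Type) (_ : Group G) (_ : MulAction G M),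
    Infinite M ∧ TopologicalSpace.MetrizableSpace M ∧
    (∀ g : G, IsHomeomorph fun x : M => g • x) ∧
    (∀ s t : Triple M, ∃! g : G, act g s = t) ∧
    ∀ _τ : TopologicalSpace G, ¬ ∀ t : Triple M, IsHomeomorph fun g : G => act g t :=
  Mt.main

end Pool.Agent.Results.MP_3e0647_al.Metrizable
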